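import Pool.Agent.Helper37.SN.Stmts

namespace Pool.Agent.Helper37.SN

open MeasureTheory Finset
open scoped ENNReal Classical

theorem clu_tri {G : Type*} [SeminormedAddCommGroup G] (a b z : G) (h : ℤ)
    (h1 : ‖z - a‖ ≤ (2 : ℝ) ^ (-h)) (h2 : ‖z - b‖ ≤ (2 : ℝ) ^ (-h)) :
    ‖b - a‖ ≤ (2 : ℝ) ^ (-(h - 1)) := by
  have e : b - a = (z - a) - (z - b) := by abel
  have h3 : (2 : ℝ) ^ (-(h - 1)) = 2 * (2 : ℝ) ^ (-h) := by
    rw [show (-(h - 1)) = 1 + -h by ring, zpow_add₀ (by norm_num), zpow_one]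
  rw [e, h3]
  calc ‖(z - a) - (z - b)‖ ≤ ‖z - a‖ + ‖z - b‖ := norm_sub_le _ _
    _ ≤ 2 * (2 : ℝ) ^ (-h) := by linarith

theorem clu_bx (n ρ s : ℕ) (a b z : P2) (h1 : Bx n ρ s a z) (h2 : Bx n ρ s b z) :
    Bx n ((ρ : ℤ) - 1) s a b := by
  constructor
  · have := clu_tri a.1 b.1 z.1 _ h1.1 h2.1
    rwa [show ((s : ℤ) + ρ) - 1 = (s : ℤ) + ((ρ : ℤ) - 1) by ring] at this
  · have := clu_tri a.2 b.2 z.2 _ h1.2 h2.2
    rwa [show ((n : ℤ) - s + ρ) - 1 = (n : ℤ) - s + ((ρ : ℤ) - 1) by ring] at this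

theorem clu_bx_symm (n : ℕ) (ρ : ℤ) (s : ℕ) (a b : P2) (h : Bx n ρ s a b) : Bx n ρ s b a := by
  constructor
  · rw [norm_sub_rev]; exact h.1
  · rw [norm_sub_rev]; exact h.2

theorem clu_bx_self (n : ℕ) (ρ : ℤ) (s : ℕ) (a : P2) : Bx n ρ s a a := by
  constructor
  · rw [sub_self, norm_zero]; positivity
  · rw [sub_self, norm_zero]; positivity

theorem st_CLU : ST_CLU := by
  intro m n ρ s₀ X y hN
  set N := near X n (-1) y s₀ with hNdef
  let C : Fin m → Finset (Fin m) := fun i => near X n ρ (X i) s₀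
  have hC : ∀ i z, z ∈ C i ↔ Bx n ρ s₀ (X i) (X z) := by
    intro i z
    show z ∈ near X n ρ (X i) s₀ ↔ _
    rw [near, Finset.mem_filter]
    simp
  have hC1 : ∀ i z, z ∈ near X n ((ρ : ℤ) - 1) (X i) s₀ ↔ Bx n ((ρ : ℤ) - 1) s₀ (X i) (X z) := by
    intro i z
    rw [near, Finset.mem_filter]
    simp
  have hsub : ∀ i ∈ N, ∀ i' ∈ N, ∀ z, z ∈ C i → z ∈ C i' → C i' ⊆ C i := by
    intro i hi i' hi' z hz hz'
    -- `i'` lies in `C i`
    have h1 : Bx n ((ρ : ℤ) - 1) s₀ (X i) (X i') :=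
      clu_bx n ρ s₀ (X i) (X i') (X z) ((hC i z).mp hz) ((hC i' z).mp hz')
    have h2 : i' ∈ C i := by
      show i' ∈ near X n ρ (X i) s₀
      rw [← hN i hi]
      exact (hC1 i i').mpr h1
    have h3 : Bx n ρ s₀ (X i) (X i') := (hC i i').mp h2
    intro u hu
    have h4 : Bx n ρ s₀ (X i') (X u) := (hC i' u).mp hu
    have h5 : Bx n ((ρ : ℤ) - 1) s₀ (X i) (X u) :=
      clu_bx n ρ s₀ (X i) (X u) (X i') h3 (clu_bx_symm _ _ _ _ _ h4)
    show u ∈ near X n ρ (X i) s₀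
    rw [← hN i hi]
    exact (hC1 i u).mpr h5
  have hself : ∀ i, i ∈ C i := fun i => (hC i i).mpr (clu_bx_self _ _ _ _)
  refine ⟨N.filter (fun i => ∀ i' ∈ N, C i' = C i → i ≤ i'), Finset.filter_subset _ _, ?_, ?_⟩
  · intro i hi i' hi' hne
    rw [Finset.mem_filter] at hi hi'
    rw [Finset.disjoint_left]
    intro z hz hz'
    have h1 : C i' ⊆ C i := hsub i hi.1 i' hi'.1 z hz hz'
    have h2 : C i ⊆ C i' := hsub i' hi'.1 i hi.1 z hz' hz
    have h3 : C i' = C i := Finset.Subset.antisymm h1 h2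
    exact hne (le_antisymm (hi.2 i' hi'.1 h3) (hi'.2 i hi.1 h3.symm))
  · intro z hz
    have hne : (N.filter (fun i => C i = C z)).Nonempty :=
      ⟨z, Finset.mem_filter.mpr ⟨hz, rfl⟩⟩
    have hmem := Finset.min'_mem _ hne
    rw [Finset.mem_filter] at hmem
    refine ⟨(N.filter (fun i => C i = C z)).min' hne, ?_, ?_⟩
    · rw [Finset.mem_filter]
      refine ⟨hmem.1, ?_⟩
      intro i' hi' he
      apply Finset.min'_le
      rw [Finset.mem_filter]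
      exact ⟨hi', he.trans hmem.2⟩
    · show z ∈ C ((N.filter (fun i => C i = C z)).min' hne)
      rw [hmem.2]
      exact hself z

end Pool.Agent.Helper37.SN
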